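import Mathlib
import Pool.Agent.H579R3.Epi2

set_option autoImplicit false

open Set

namespace Pool.Agent.V7H77.EE

open Pool.Agent.H579R3.Epi (K IsAuto)

/-! ## The structures coding labelled trees -/

/-- the universe of the reduced structure: garbage, nodes, standard points, limit points -/
inductive D : Type
  | gar : D
  | nd (p : List ℤ) : D
  | std (p : List ℤ) (κ : K) (n : ℕ) : D
  | lim (p : List ℤ) (κ : K) : D

open D

/-- a code for the elements of `D` -/
def D.code : D → Option (List ℤ × Option (K × Option ℕ))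
  | .gar => none
  | .nd p => some (p, none)
  | .std p κ n => some (p, some (κ, some n))
  | .lim p κ => some (p, some (κ, none))

lemma D.code_injective : Function.Injective D.code := by
  intro a b h
  cases a <;> cases b <;> simp_all [D.code]

instance : Countable D := D.code_injective.countable

/-- the relation symbols -/
inductive Sy : Type
  | E : Sy
  | R : Sy
  | F (κ : K) : Sy
  | P (n : ℕ) : Sy

/-- a code for the symbols -/
def Sy.code : Sy → Option (Option (K ⊕ ℕ))
  | .E => none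
  | .R => some none
  | .F κ => some (some (Sum.inl κ))
  | .P n => some (some (Sum.inr n))

lemma Sy.code_injective : Function.Injective Sy.code := by
  intro a b h
  cases a <;> cases b <;> simp_all [Sy.code]

instance : Countable Sy := Sy.code_injective.countable

instance : Infinite Sy := Infinite.of_injective Sy.P fun _ _ h => by simpa using h

lemma exists_enum : ∃ e : ℕ → Sy, Function.Bijective e := by
  have := Classical.choice (nonempty_denumerable Sy)
  exact ⟨(Denumerable.eqv Sy).symm, (Denumerable.eqv Sy).symm.bijective⟩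

/-- the enumeration of the symbols -/
noncomputable def sym : ℕ → Sy := exists_enum.choose

lemma sym_bij : Function.Bijective sym := exists_enum.choose_spec

/-- the relations of the reduced structure -/
def rel (s : Sy) (a b : D) : Prop :=
  match s with
  | .E => ∃ p k, a = nd p ∧ b = nd (k :: p)
  | .R => a = nd [] ∧ b = nd []
  | .F κ => ∃ p, a = nd p ∧ (b = lim p κ ∨ ∃ n, b = std p κ n)
  | .P n => ∃ p κ, a = nd p ∧ b = std p κ n

lemma rel_E {a b : D} : rel .E a b ↔ ∃ p k, a = nd p ∧ b = nd (k :: p) := Iff.rfl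
lemma rel_R {a b : D} : rel .R a b ↔ a = nd [] ∧ b = nd [] := Iff.rfl
lemma rel_F {κ : K} {a b : D} :
    rel (.F κ) a b ↔ ∃ p, a = nd p ∧ (b = lim p κ ∨ ∃ n, b = std p κ n) := Iff.rfl
lemma rel_P {n : ℕ} {a b : D} : rel (.P n) a b ↔ ∃ p κ, a = nd p ∧ b = std p κ n := Iff.rfl

/-- standard points with large index are identified with the limit point -/
def nf (N : ℕ) : D → D
  | .gar => gar
  | .nd p => nd p
  | .std p κ n => if N ≤ n then lim p κ else std p κ n
  | .lim p κ => lim p κ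

lemma nf_eq_nd {N : ℕ} {a : D} {p : List ℤ} : nf N a = nd p ↔ a = nd p := by
  cases a with
  | gar => simp [nf]
  | nd q => simp [nf]
  | std q κ n => by_cases h : N ≤ n <;> simp [nf, h]
  | lim q κ => simp [nf]

lemma rel_nf {N : ℕ} {s : Sy} (hs : ∀ n, N ≤ n → s ≠ .P n) (a b : D) :
    rel s (nf N a) (nf N b) ↔ rel s a b := by
  cases s with
  | E => simp only [rel_E, nf_eq_nd]
  | R => simp only [rel_R, nf_eq_nd]
  | F κ =>
    simp only [rel_F, nf_eq_nd]
    refine exists_congr fun p => and_congr_right fun _ => ?_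
    cases b with
    | gar => simp [nf]
    | nd q => simp [nf]
    | std q κ' n => by_cases h : N ≤ n <;> simp [nf, h]
    | lim q κ' => simp [nf]
  | P n =>
    have hn : ¬ N ≤ n := fun h => hs n h rfl
    simp only [rel_P, nf_eq_nd]
    refine exists_congr fun p => exists_congr fun κ => and_congr_right fun _ => ?_
    cases b with
    | gar => simp [nf]
    | nd q => simp [nf]
    | std q κ' m =>
      by_cases h : N ≤ m
      · simp only [nf, h, if_true, reduceCtorEq, D.std.injEq, false_iff, not_and]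
        rintro _ _ rfl
        exact hn h
      · simp [nf, h]
    | lim q κ' => simp [nf]

/-- the map of `D` induced by a map of the tree -/
def mapD (g : List ℤ → List ℤ) : D → D
  | .gar => gar
  | .nd p => nd (g p)
  | .std p κ n => std (g p) κ n
  | .lim p κ => lim (g p) κ

lemma mapD_inj {g : List ℤ → List ℤ} (hg : Function.Injective g) :
    Function.Injective (mapD g) := by
  intro a b h
  cases a <;> cases b <;> simp [mapD] at h ⊢
  · exact hg h
  · exact ⟨hg h.1, h.2⟩
  · exact ⟨hg h.1, h.2⟩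

lemma mapD_surj {g : List ℤ → List ℤ} (hg : Function.Surjective g) :
    Function.Surjective (mapD g) := by
  intro b
  cases b with
  | gar => exact ⟨gar, rfl⟩
  | nd q =>
    obtain ⟨p, rfl⟩ := hg q
    exact ⟨nd p, rfl⟩
  | std q κ n =>
    obtain ⟨p, rfl⟩ := hg q
    exact ⟨std p κ n, rfl⟩
  | lim q κ =>
    obtain ⟨p, rfl⟩ := hg q
    exact ⟨lim p κ, rfl⟩

lemma rel_mapD {g : List ℤ → List ℤ} (hg : IsAuto g) (s : Sy) (a b : D) :
    rel s (mapD g a) (mapD g b) ↔ rel s a b := by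
  have hinj := hg.bij.1
  cases s with
  | E =>
    simp only [rel_E]
    constructor
    · rintro ⟨p, k, h1, h2⟩
      cases a <;> cases b <;> simp [mapD] at h1 h2
      rename_i a b
      subst h1
      rcases b with _ | ⟨k', b⟩
      · rw [hg.nil] at h2
        exact absurd h2 (by simp)
      · obtain ⟨k'', e⟩ := hg.cons k' b
        rw [e] at h2
        have := hinj (List.cons.inj h2).2
        subst this
        exact ⟨b, k', rfl, rfl⟩
    · rintro ⟨p, k, rfl, rfl⟩
      obtain ⟨k', e⟩ := hg.cons k p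
      exact ⟨g p, k', rfl, by rw [mapD, e]⟩
  | R =>
    simp only [rel_R]
    cases a <;> cases b <;> simp [mapD]
    rename_i a b
    constructor
    · rintro ⟨h1, h2⟩
      exact ⟨hinj (by rw [h1, hg.nil]), hinj (by rw [h2, hg.nil])⟩
    · rintro ⟨rfl, rfl⟩
      exact ⟨hg.nil, hg.nil⟩
  | F κ =>
    simp only [rel_F]
    constructor
    · rintro ⟨p, h1, h2⟩
      cases a <;> cases b <;> simp [mapD] at h1 h2
      · rename_i a b κ' n
        subst h1
        exact ⟨a, rfl, Or.inr ⟨n, by rw [hinj h2.1, h2.2]⟩⟩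
      · rename_i a b κ'
        subst h1
        exact ⟨a, rfl, Or.inl (by rw [hinj h2.1, h2.2])⟩
    · rintro ⟨p, rfl, rfl | ⟨n, rfl⟩⟩
      · exact ⟨g p, rfl, Or.inl rfl⟩
      · exact ⟨g p, rfl, Or.inr ⟨n, rfl⟩⟩
  | P m =>
    simp only [rel_P]
    constructor
    · rintro ⟨p, κ, h1, h2⟩
      cases a <;> cases b <;> simp [mapD] at h1 h2
      rename_i a b κ' n
      subst h1
      exact ⟨a, κ', rfl, by rw [hinj h2.1, h2.2.2]⟩
    · rintro ⟨p, κ, rfl, rfl⟩
      exact ⟨g p, κ, rfl, rfl⟩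

/-! ## Prescribed fibres -/

/-- the points of `D` with infinite fibres, for the labelling `Λ` -/
def J (Λ : List ℤ → Set K) (d : D) : Prop := d = gar ∨ ∃ p κ, d = lim p κ ∧ κ ∈ Λ p

lemma J_gar (Λ : List ℤ → Set K) : J Λ gar := Or.inl rfl

lemma not_J_nd (Λ : List ℤ → Set K) (p : List ℤ) : ¬ J Λ (nd p) := by
  rintro (h | ⟨q, κ, h, _⟩) <;> exact absurd h (by simp)

lemma not_J_std (Λ : List ℤ → Set K) (p : List ℤ) (κ : K) (n : ℕ) : ¬ J Λ (std p κ n) := by
  rintro (h | ⟨q, κ, h, _⟩) <;> exact absurd h (by simp)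

lemma J_lim (Λ : List ℤ → Set K) (p : List ℤ) (κ : K) : J Λ (lim p κ) ↔ κ ∈ Λ p := by
  constructor
  · rintro (h | ⟨q, κ', h, h'⟩)
    · exact absurd h (by simp)
    · simp only [D.lim.injEq] at h
      obtain ⟨rfl, rfl⟩ := h
      exact h'
  · intro h
    exact Or.inr ⟨p, κ, rfl, h⟩

/-- the fibres of `π` are as prescribed by the labelling `Λ` -/
def Fib (Λ : List ℤ → Set K) (π : ℕ → D) : Prop :=
  ∀ d, (J Λ d → {n | π n = d}.Infinite) ∧ (¬ J Λ d → ∃! n, π n = d)

lemma Fib.surj {Λ : List ℤ → Set K} {π : ℕ → D} (h : Fib Λ π) : Function.Surjective π := by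
  intro d
  by_cases hd : J Λ d
  · obtain ⟨n, hn⟩ := ((h d).1 hd).nonempty
    exact ⟨n, hn⟩
  · obtain ⟨n, hn, _⟩ := (h d).2 hd
    exact ⟨n, hn⟩

/-- maps of the tree, not necessarily onto, which increase the labels -/
def TEm (Λ Λ' : List ℤ → Set K) : Prop :=
  ∃ g : List ℤ → List ℤ, g [] = [] ∧ (∀ k p, ∃ k', g (k :: p) = k' :: g p) ∧
    ∀ p, Λ p ⊆ Λ' (g p)

section Emb

variable {Λ Λ' : List ℤ → Set K} {π π' : ℕ → D}

/-- A map which preserves the relations is given on the nodes by a map of the tree. -/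
lemma emb_node (hF : Fib Λ π) {h : ℕ → ℕ}
    (hr : ∀ s a b, rel s (π a) (π b) ↔ rel s (π' (h a)) (π' (h b))) :
    ∃ g : List ℤ → List ℤ, g [] = [] ∧ (∀ k p, ∃ k', g (k :: p) = k' :: g p) ∧
      (∀ n p, π n = nd p → π' (h n) = nd (g p)) ∧
      (∀ n p κ m, π n = std p κ m → π' (h n) = std (g p) κ m) ∧
      ∀ n p κ, π n = lim p κ → π' (h n) = lim (g p) κ := by
  have h1 : ∀ p, ∃ p', ∀ n, π n = nd p → π' (h n) = nd p' := by
    intro p
    obtain ⟨n, hn, hu⟩ := (hF (nd p)).2 (not_J_nd _ _)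
    obtain ⟨m, hm⟩ := hF.surj (nd (0 :: p))
    have h2 : rel .E (π n) (π m) := ⟨p, 0, hn, hm⟩
    rw [hr] at h2
    obtain ⟨p', _, h3, _⟩ := h2
    exact ⟨p', fun l hl => by rw [hu l hl, h3]⟩
  choose g hg using h1
  have hg' : ∀ n p, π n = nd p → π' (h n) = nd (g p) := fun n p hn => hg p n hn
  refine ⟨g, ?_, ?_, hg', ?_, ?_⟩
  · obtain ⟨n, hn⟩ := hF.surj (nd [])
    have h2 : rel .R (π n) (π n) := ⟨hn, hn⟩
    rw [hr] at h2
    have h3 := h2.1
    rw [hg' n _ hn] at h3
    simpa using h3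
  · intro k p
    obtain ⟨n, hn⟩ := hF.surj (nd p)
    obtain ⟨m, hm⟩ := hF.surj (nd (k :: p))
    have h2 : rel .E (π n) (π m) := ⟨p, k, hn, hm⟩
    rw [hr] at h2
    obtain ⟨q, k', h3, h4⟩ := h2
    rw [hg' n _ hn] at h3
    rw [hg' m _ hm] at h4
    simp only [D.nd.injEq] at h3 h4
    exact ⟨k', by rw [h4, h3]⟩
  · intro n p κ m hn
    obtain ⟨l, hl⟩ := hF.surj (nd p)
    have h2 : rel (.F κ) (π l) (π n) := ⟨p, hl, Or.inr ⟨m, hn⟩⟩
    have h2' : rel (.P m) (π l) (π n) := ⟨p, κ, hl, hn⟩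
    rw [hr] at h2 h2'
    obtain ⟨q, h3, h4⟩ := h2
    obtain ⟨q', κ', h5, h6⟩ := h2'
    rw [hg' l _ hl] at h3 h5
    simp only [D.nd.injEq] at h3 h5
    rw [h6] at h4 ⊢
    rcases h4 with h4 | ⟨m', h4⟩
    · exact absurd h4 (by simp)
    · simp only [D.std.injEq] at h4 ⊢
      exact ⟨h5.symm, h4.2.1, trivial⟩
  · intro n p κ hn
    obtain ⟨l, hl⟩ := hF.surj (nd p)
    have h2 : rel (.F κ) (π l) (π n) := ⟨p, hl, Or.inl hn⟩
    rw [hr] at h2
    obtain ⟨q, h3, h4⟩ := h2
    rw [hg' l _ hl] at h3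
    simp only [D.nd.injEq] at h3
    subst h3
    rcases h4 with h4 | ⟨m', h4⟩
    · exact h4
    · exfalso
      have h5 : rel (.P m') (π' (h l)) (π' (h n)) := ⟨g p, κ, hg' l _ hl, h4⟩
      rw [← hr, hn] at h5
      obtain ⟨_, _, _, h6⟩ := h5
      exact absurd h6 (by simp)

/-- An embedding of the structures gives a map of the labelled trees. -/
theorem emb_tree (hF : Fib Λ π) (hF' : Fib Λ' π') {h : ℕ → ℕ} (hi : Function.Injective h)
    (hr : ∀ s a b, rel s (π a) (π b) ↔ rel s (π' (h a)) (π' (h b))) : TEm Λ Λ' := by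
  obtain ⟨g, h1, h2, _, _, h5⟩ := emb_node hF hr
  refine ⟨g, h1, h2, fun p κ hκ => ?_⟩
  by_contra hκ'
  obtain ⟨n, hn, hu⟩ := (hF' (lim (g p) κ)).2 (fun hJ => hκ' ((J_lim _ _ _).1 hJ))
  have h6 := (hF (lim p κ)).1 ((J_lim _ _ _).2 hκ)
  have h7 : (h '' {n | π n = lim p κ}).Infinite := h6.image hi.injOn
  refine h7 ((finite_singleton n).subset ?_)
  rintro _ ⟨m, hm, rfl⟩
  exact hu _ (h5 m p κ hm)

/-- Equal coding structures come from isomorphic labelled trees. -/
theorem eq_tree (hF : Fib Λ π) (hF' : Fib Λ' π') (hr : ∀ s a b, rel s (π a) (π b) ↔ rel s (π' a) (π' b)) :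
    ∃ g, IsAuto g ∧ (∀ n, π' n = mapD g (π n)) ∧ ∀ p, Λ p = Λ' (g p) := by
  obtain ⟨g, a1, a2, a3, a4, a5⟩ := emb_node (h := id) hF hr
  obtain ⟨g', b1, b2, b3, b4, b5⟩ := emb_node (h := id) hF' fun s a b => (hr s a b).symm
  simp only [id] at a3 a4 a5 b3 b4 b5
  have h1 : ∀ p, g' (g p) = p := by
    intro p
    obtain ⟨n, hn⟩ := hF.surj (nd p)
    have := b3 n (g p) (a3 n p hn)
    rw [hn] at this
    simpa using this.symm
  have h2 : ∀ p, g (g' p) = p := by
    intro p
    obtain ⟨n, hn⟩ := hF'.surj (nd p)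
    have := a3 n (g' p) (b3 n p hn)
    rw [hn] at this
    simpa using this.symm
  have hinj : Function.Injective g := by
    intro p q hpq
    rw [← h1 p, hpq, h1]
  have hmap : ∀ n, π' n = mapD g (π n) := by
    intro n
    cases hn : π n with
    | gar =>
      cases hm : π' n with
      | gar => rfl
      | nd p => exact absurd ((b3 n p hm).symm.trans hn) (by simp)
      | std p κ m => exact absurd ((b4 n p κ m hm).symm.trans hn) (by simp)
      | lim p κ => exact absurd ((b5 n p κ hm).symm.trans hn) (by simp)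
    | nd p => exact a3 n p hn
    | std p κ m => exact a4 n p κ m hn
    | lim p κ => exact a5 n p κ hn
  refine ⟨g, ⟨⟨hinj, fun p => ⟨g' p, h2 p⟩⟩, a1, a2⟩, hmap, fun p => ?_⟩
  have hfib : ∀ κ, {n | π n = lim p κ} = {n | π' n = lim (g p) κ} := by
    intro κ
    ext n
    change π n = lim p κ ↔ π' n = lim (g p) κ
    rw [hmap n]
    constructor
    · intro h
      rw [h]
      rfl
    · intro h
      exact mapD_inj hinj h
  ext κ
  constructor
  · intro hκ
    by_contra hκ'
    obtain ⟨n, hn, hu⟩ := (hF' (lim (g p) κ)).2 (fun hJ => hκ' ((J_lim _ _ _).1 hJ))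
    have h1 := (hF (lim p κ)).1 ((J_lim _ _ _).2 hκ)
    rw [hfib] at h1
    exact h1 ((finite_singleton n).subset fun m hm => hu m hm)
  · intro hκ
    by_contra hκ'
    obtain ⟨n, hn, hu⟩ := (hF (lim p κ)).2 (fun hJ => hκ' ((J_lim _ _ _).1 hJ))
    have h1 := (hF' (lim (g p) κ)).1 ((J_lim _ _ _).2 hκ)
    rw [← hfib] at h1
    exact h1 ((finite_singleton n).subset fun m hm => hu m hm)

lemma exists_inj {S T : Set ℕ} (hT : T.Nonempty) (h : T.Infinite ∨ ∃ s, S = {s}) :
    ∃ f : ℕ → ℕ, InjOn f S ∧ ∀ s ∈ S, f s ∈ T := by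
  classical
  rcases h with h | ⟨s, rfl⟩
  · refine ⟨Nat.nth (· ∈ T), (Nat.nth_injective h).injOn, fun s _ => ?_⟩
    exact Nat.nth_mem_of_infinite h s
  · obtain ⟨t, ht⟩ := hT
    exact ⟨fun _ => t, injOn_singleton _ _, fun _ _ => ht⟩

/-- A map of the labelled trees gives an injection of the universes. -/
theorem tree_emb (hF : Fib Λ π) (hF' : Fib Λ' π') {g : List ℤ → List ℤ} (hg : IsAuto g)
    (hΛ : ∀ p, Λ p ⊆ Λ' (g p)) :
    ∃ h : ℕ → ℕ, Function.Injective h ∧ ∀ n, π' (h n) = mapD g (π n) := by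
  have hex : ∀ d, ∃ f : ℕ → ℕ, InjOn f {n | π n = d} ∧
      ∀ s ∈ {n | π n = d}, f s ∈ {n | π' n = mapD g d} := by
    intro d
    apply exists_inj
    · exact hF'.surj _
    · by_cases hJ : J Λ d
      · left
        apply (hF' _).1
        cases d with
        | gar => exact J_gar _
        | nd p => exact absurd hJ (not_J_nd _ _)
        | std p κ n => exact absurd hJ (not_J_std _ _ _ _)
        | lim p κ =>
          rw [J_lim] at hJ
          exact (J_lim _ _ _).2 (hΛ p hJ)
      · right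
        obtain ⟨n, hn, hu⟩ := (hF _).2 hJ
        refine ⟨n, ?_⟩
        ext m
        exact ⟨fun hm => hu m hm, fun hm => by rw [mem_singleton_iff.1 hm]; exact hn⟩
  choose f hf1 hf2 using hex
  refine ⟨fun n => f (π n) n, ?_, fun n => hf2 (π n) n rfl⟩
  intro a b hab
  simp only at hab
  have h1 : π' (f (π a) a) = mapD g (π a) := hf2 (π a) a rfl
  have h2 : π' (f (π b) b) = mapD g (π b) := hf2 (π b) b rfl
  have h3 : π a = π b := by
    apply mapD_inj hg.bij.1
    rw [← h1, ← h2, hab]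
  rw [h3] at hab
  exact hf1 (π b) h3 rfl hab

/-- The extension property needed for elementarity: every element has a twin in the range. -/
theorem twin (hF : Fib Λ π) (hF' : Fib Λ' π') {g : List ℤ → List ℤ} (hg : IsAuto g)
    {h : ℕ → ℕ} (hh : ∀ n, π' (h n) = mapD g (π n)) (N : ℕ) (b : ℕ)
    (hb : b ∉ range h) (A : Finset ℕ) :
    ∃ c, c ∉ A ∧ nf N (π' (h c)) = nf N (π' b) := by
  obtain ⟨d, hd⟩ := mapD_surj hg.bij.2 (π' b)
  cases d with
  | gar =>
    obtain ⟨c, hc, hcA⟩ := ((hF gar).1 (J_gar _)).exists_notMem_finset A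
    refine ⟨c, hcA, ?_⟩
    rw [hh, ← hd, show π c = gar from hc]
  | nd p =>
    exfalso
    obtain ⟨n, hn, hu⟩ := (hF' (mapD g (nd p))).2 (not_J_nd _ _)
    obtain ⟨m, hm⟩ := hF.surj (nd p)
    apply hb
    refine ⟨m, ?_⟩
    rw [hu b hd.symm]
    exact hu _ (by change π' (h m) = _; rw [hh, hm])
  | std p κ k =>
    exfalso
    obtain ⟨n, hn, hu⟩ := (hF' (mapD g (std p κ k))).2 (not_J_std _ _ _ _)
    obtain ⟨m, hm⟩ := hF.surj (std p κ k)
    apply hb
    refine ⟨m, ?_⟩
    rw [hu b hd.symm]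
    exact hu _ (by change π' (h m) = _; rw [hh, hm])
  | lim p κ =>
    have hex : ∀ j, ∃ c, π c = std p κ (N + j) := fun j => hF.surj _
    choose c hc using hex
    have hci : Function.Injective c := by
      intro i j hij
      have h1 := hc i
      rw [hij, hc j] at h1
      simp only [D.std.injEq] at h1
      omega
    obtain ⟨m, ⟨j, rfl⟩, hm⟩ := (infinite_range_of_injective hci).exists_notMem_finset A
    refine ⟨c j, hm, ?_⟩
    rw [hh, ← hd, hc j]
    simp [mapD, nf]

end Emb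

end Pool.Agent.V7H77.EE
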