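import Mathlib
import Pool.Agent.V7H77.EE1

set_option autoImplicit false

open Set FirstOrder FirstOrder.Language FirstOrder.Language.Structure

namespace Pool.Agent.V7H77.EE

open Pool.Agent.H579R3.Epi (K IsAuto)

/-- countably many binary relation symbols -/
abbrev Lg : FirstOrder.Language.{0, 0} :=
  FirstOrder.Language.mk (fun _ => PEmpty.{1}) (fun n => {i : ℕ // (fun _ : ℕ => 2) i = n})

section General

variable {M N : Type} [Lg.Structure M] [Lg.Structure N]

lemma realize_term_comp {β : Type} (σ : N → N) (v : β → N) (t : Lg.Term β) :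
    t.realize (σ ∘ v) = σ (t.realize v) := by
  cases t with
  | var i => rfl
  | func f ts => exact PEmpty.elim f

/-- Every formula is invariant under the permutations which preserve the first few relations. -/
lemma perm_inv {α : Type} {n : ℕ} (φ : Lg.BoundedFormula α n) :
    ∃ m : ℕ, ∀ σ : Equiv.Perm N,
      (∀ (k : ℕ) (r : Lg.Relations k), r.1 < m → ∀ xs : Fin k → N,
        RelMap r (σ ∘ xs) ↔ RelMap r xs) →
      ∀ (v : α → N) (xs : Fin n → N), φ.Realize (σ ∘ v) (σ ∘ xs) ↔ φ.Realize v xs := by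
  induction φ with
  | falsum => exact ⟨0, fun σ _ v xs => Iff.rfl⟩
  | equal t₁ t₂ =>
    refine ⟨0, fun σ _ v xs => ?_⟩
    simp only [BoundedFormula.Realize, ← Sum.comp_elim]
    rw [realize_term_comp, realize_term_comp]
    exact σ.injective.eq_iff
  | rel R ts =>
    refine ⟨R.1 + 1, fun σ hσ v xs => ?_⟩
    simp only [BoundedFormula.Realize, ← Sum.comp_elim]
    have := hσ _ R (Nat.lt_succ_self _) (fun i => (ts i).realize (Sum.elim v xs))
    rw [← this]
    have h2 : (fun i => (ts i).realize (σ ∘ Sum.elim v xs)) =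
        σ ∘ fun i => (ts i).realize (Sum.elim v xs) := by
      funext i
      exact realize_term_comp _ _ _
    rw [h2]
  | imp φ ψ ih1 ih2 =>
    obtain ⟨m1, h1⟩ := ih1
    obtain ⟨m2, h2⟩ := ih2
    refine ⟨max m1 m2, fun σ hσ v xs => ?_⟩
    simp only [BoundedFormula.realize_imp]
    rw [h1 σ (fun k r hr => hσ k r (lt_of_lt_of_le hr (le_max_left _ _))),
      h2 σ (fun k r hr => hσ k r (lt_of_lt_of_le hr (le_max_right _ _)))]
  | all φ ih =>
    obtain ⟨m, h⟩ := ih
    refine ⟨m, fun σ hσ v xs => ?_⟩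
    simp only [BoundedFormula.realize_all]
    constructor
    · intro h1 a
      have h2 := h1 (σ a)
      rw [← Fin.comp_snoc, h σ hσ] at h2
      exact h2
    · intro h1 a
      have h2 := h1 (σ.symm a)
      rw [← h σ hσ, Fin.comp_snoc, σ.apply_symm_apply] at h2
      exact h2

open Classical in
/-- A sufficient condition for an embedding to be elementary. -/
theorem elementary_of_twin (h : M → N) (hi : Function.Injective h)
    (hrel : ∀ (k : ℕ) (r : Lg.Relations k) (xs : Fin k → M), RelMap r (h ∘ xs) ↔ RelMap r xs)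
    (htw : ∀ (m : ℕ) (b : N), b ∉ range h → ∀ A : Finset M, ∃ c, c ∉ A ∧
      ∀ σ : Equiv.Perm N, σ b = h c → σ (h c) = b → (∀ a, a ≠ b → a ≠ h c → σ a = a) →
      ∀ (k : ℕ) (r : Lg.Relations k), r.1 < m → ∀ xs : Fin k → N,
        RelMap r (σ ∘ xs) ↔ RelMap r xs) :
    Nonempty (M ↪ₑ[Lg] N) := by
  let f : M ↪[Lg] N :=
    { toFun := h
      inj' := hi
      map_fun' := fun f => PEmpty.elim f
      map_rel' := fun r xs => hrel _ r xs }
  refine ⟨f.toElementaryEmbedding ?_⟩
  intro n φ x b hb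
  by_cases hbr : b ∈ range h
  · obtain ⟨c, rfl⟩ := hbr
    exact ⟨c, hb⟩
  · obtain ⟨m, hm⟩ := perm_inv (N := N) φ
    obtain ⟨c, hcA, hc⟩ := htw m b hbr (Finset.univ.image x)
    refine ⟨c, ?_⟩
    have h1 := (hm (Equiv.swap b (h c)) (hc _ (Equiv.swap_apply_left _ _)
      (Equiv.swap_apply_right _ _) fun a => Equiv.swap_apply_of_ne_of_ne) default
      (Fin.snoc (f ∘ x) b)).2 hb
    have h2 : (Equiv.swap b (h c)) ∘ (Fin.snoc (f ∘ x) b : Fin (n + 1) → N) =
        (Fin.snoc (f ∘ x) (f c) : Fin (n + 1) → N) := by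
      rw [Fin.comp_snoc]
      congr 1
      · funext i
        change Equiv.swap b (h c) (h (x i)) = h (x i)
        rw [Equiv.swap_apply_of_ne_of_ne]
        · rintro rfl
          exact hbr ⟨x i, rfl⟩
        · intro h3
          apply hcA
          rw [← hi h3]
          simp
      · exact Equiv.swap_apply_left _ _
    rw [h2] at h1
    have h3 : ((Equiv.swap b (h c)) ∘ (default : Empty → N)) = default := Subsingleton.elim _ _
    rw [h3] at h1
    exact h1

end General

/-! ## The structures on `ℕ` -/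

/-- codes of structures -/
abbrev Str : Type := ∀ i : ℕ, (Fin ((fun _ : ℕ => 2) i) → ℕ) → Bool

/-- the structure coded by `u` -/
@[reducible] def strOf (u : Str) : Lg.Structure ℕ :=
  @FirstOrder.Language.Structure.mk Lg ℕ (fun f _ => PEmpty.elim f)
    (fun r xs => u (Subtype.val r) (xs ∘ Fin.cast (Subtype.property r)) = true)

/-- elementary embeddability -/
def EEmb (u v : Str) : Prop :=
  Nonempty (@FirstOrder.Language.ElementaryEmbedding Lg ℕ ℕ (strOf u) (strOf v))

open Classical in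
/-- the structure on `ℕ` pulled back from the reduced structure -/
noncomputable def pull (π : ℕ → D) : Str := fun i xs => decide (rel (sym i) (π (xs 0)) (π (xs 1)))

lemma pull_iff (π : ℕ → D) (i : ℕ) (a b : ℕ) :
    pull π i ![a, b] = true ↔ rel (sym i) (π a) (π b) := by
  classical
  unfold pull
  rw [decide_eq_true_iff]
  rfl

lemma pull_iff' (π : ℕ → D) (i : ℕ) (xs : Fin 2 → ℕ) :
    pull π i xs = true ↔ rel (sym i) (π (xs 0)) (π (xs 1)) := by
  classical
  unfold pull
  rw [decide_eq_true_iff]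

lemma pull_eq {π π' : ℕ → D} (h : pull π = pull π') (s : Sy) (a b : ℕ) :
    rel s (π a) (π b) ↔ rel s (π' a) (π' b) := by
  obtain ⟨i, rfl⟩ := sym_bij.2 s
  rw [← pull_iff, ← pull_iff, h]

lemma rel_of_embedding {π π' : ℕ → D} {h : ℕ → ℕ}
    (hr : ∀ (k : ℕ) (r : Lg.Relations k) (xs : Fin k → ℕ),
      @RelMap Lg ℕ (strOf (pull π')) k r (h ∘ xs) ↔ @RelMap Lg ℕ (strOf (pull π)) k r xs)
    (s : Sy) (a b : ℕ) :
    rel s (π a) (π b) ↔ rel s (π' (h a)) (π' (h b)) := by
  obtain ⟨i, rfl⟩ := sym_bij.2 s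
  have h1 := hr 2 ⟨i, rfl⟩ ![a, b]
  change pull π' i _ = true ↔ pull π i _ = true at h1
  rw [pull_iff', pull_iff'] at h1
  exact h1.symm

theorem EEmb.tree {Λ Λ' : List ℤ → Set K} {π π' : ℕ → D} (hF : Fib Λ π) (hF' : Fib Λ' π')
    (h : EEmb (pull π) (pull π')) : TEm Λ Λ' := by
  obtain ⟨f⟩ := h
  refine emb_tree hF hF' (h := @FirstOrder.Language.ElementaryEmbedding.toFun Lg ℕ ℕ (strOf _) (strOf _) f) ?_ ?_
  · exact @FirstOrder.Language.ElementaryEmbedding.injective Lg ℕ ℕ (strOf _) (strOf _) f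
  · refine rel_of_embedding fun k r xs => ?_
    exact @FirstOrder.Language.ElementaryEmbedding.map_rel Lg ℕ ℕ (strOf _) (strOf _) f k r xs

theorem tree_EEmb {Λ Λ' : List ℤ → Set K} {π π' : ℕ → D} (hF : Fib Λ π) (hF' : Fib Λ' π')
    {g : List ℤ → List ℤ} (hg : IsAuto g) (hΛ : ∀ p, Λ p ⊆ Λ' (g p)) :
    EEmb (pull π) (pull π') := by
  obtain ⟨h, hi, hh⟩ := tree_emb hF hF' hg hΛ
  refine @elementary_of_twin ℕ ℕ (strOf (pull π)) (strOf (pull π')) h hi ?_ ?_
  · rintro k ⟨i, rfl⟩ xs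
    change pull π' i _ = true ↔ pull π i _ = true
    rw [pull_iff', pull_iff']
    change rel (sym i) (π' (h (xs 0))) (π' (h (xs 1))) ↔ rel (sym i) (π (xs 0)) (π (xs 1))
    rw [hh, hh, rel_mapD hg]
  · intro m b hb A
    obtain ⟨N, hN⟩ : ∃ N : ℕ, ∀ n, N ≤ n → ∀ i < m, sym i ≠ .P n := by
      have hfin : {n : ℕ | ∃ i < m, sym i = .P n}.Finite := by
        have h1 : {n : ℕ | ∃ i < m, sym i = .P n} ⊆ Sy.P ⁻¹' (sym '' {i | i < m}) := by
          rintro n ⟨i, hi, h⟩
          exact ⟨i, hi, h⟩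
        refine Finite.subset (Finite.preimage ?_ ((finite_lt_nat m).image sym)) h1
        intro a _ b _ hab
        simpa using hab
      obtain ⟨N, hN⟩ := hfin.bddAbove
      refine ⟨N + 1, fun n hn i hi h => ?_⟩
      have := hN (show n ∈ {n : ℕ | ∃ i < m, sym i = .P n} from ⟨i, hi, h⟩)
      omega
    obtain ⟨c, hcA, hc⟩ := twin hF hF' hg hh N b hb A
    refine ⟨c, hcA, fun σ s1 s2 s3 => ?_⟩
    have hsw : ∀ a, nf N (π' (σ a)) = nf N (π' a) := by
      intro a
      rcases eq_or_ne a b with rfl | h1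
      · rw [s1, hc]
      · rcases eq_or_ne a (h c) with rfl | h2
        · rw [s2, hc]
        · rw [s3 a h1 h2]
    rintro k ⟨i, rfl⟩ hr xs
    have hs : ∀ n, N ≤ n → sym i ≠ .P n := fun n hn => hN n hn i hr
    change pull π' i _ = true ↔ pull π' i _ = true
    rw [pull_iff', pull_iff']
    change rel (sym i) (π' (σ (xs 0))) (π' (σ (xs 1))) ↔
      rel (sym i) (π' (xs 0)) (π' (xs 1))
    rw [← rel_nf hs, hsw, hsw, rel_nf hs]

end Pool.Agent.V7H77.EE
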