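import Mathlib
import Pool.Agent.V7H77.EE2

set_option autoImplicit false

open Set MeasureTheory

namespace Pool.Agent.V7H77.EE

open Pool.Agent.H579R3.Epi (K IsAuto N Lam Ent ent cd Good Enc Valid last evalAt br br_length
  br_lam Enc.get tree_map rigid measurableSet_lam last_congr Lam_inr)

section

variable {α β : N → N}

/-- the relation with witnesses `w`, where `α w` is related to `β w` -/
theorem rel_of_tem {x y : N} (hα : Continuous α) (hβ : Continuous β)
    (htrans : ∀ u v t w w', α w = u → β w = v → α w' = v → β w' = t →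
      ∃ w'', α w'' = u ∧ β w'' = t)
    (h : TEm (Lam α β x) (Lam α β y)) : x = y ∨ ∃ w, α w = x ∧ β w = y := by
  obtain ⟨g, hgnil, hgcons, hL⟩ := h
  let q : ℕ → List ℤ := fun n => g (br x n)
  have hex : ∀ n, ∃ k, q (n + 1) = k :: q n := fun n => hgcons _ _
  choose k hk using hex
  have hl : ∀ n, (q n).length = n := by
    intro n
    induction n with
    | zero =>
      change (g []).length = 0
      rw [hgnil]
      rfl
    | succ n ih => rw [hk, List.length_cons, ih]
  have hmem : ∀ n, Valid α β y (q (n + 1)) ∧ x n = (ent (k n)).1 := by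
    intro n
    have h1 := hL _ (br_lam (α := α) (β := β) x n)
    change _ ∈ Lam α β y (q (n + 1)) at h1
    rw [hk, Lam_inr] at h1
    rw [hk]
    exact h1
  -- the limit chain
  set m := (ent (k 0)).2.length with hm
  let L : List (N × N) := List.ofFn fun j : Fin m =>
    ((fun i => ((ent (k i)).2.getD j (0, 0)).1), (fun i => ((ent (k i)).2.getD j (0, 0)).2))
  have hlen : ∀ n, (ent (k n)).2.length = m := by
    intro n
    obtain ⟨⟨a, l, -, h2, -⟩, -⟩ := hmem n
    have h3 := Enc.get hk hl h2 n (by omega)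
    have h4 := Enc.get hk hl h2 0 (by omega)
    rw [hm, h3, h4]
    simp [evalAt]
  have hev : ∀ n, evalAt x L n = ent (k n) := by
    intro n
    have h1 : (L.map fun q => (q.1 n, q.2 n)) = (ent (k n)).2 := by
      apply List.ext_getElem
      · simp [L, hlen]
      · intro j h2 h3
        simp [L, List.getElem?_eq_getElem h3]
    rw [evalAt, h1, (hmem n).2]
  have hgood : ∀ n, Good α β n x L ∧ ∀ i < n, last x L i = y i := by
    intro n
    rcases n with _ | n
    · obtain ⟨⟨a, l, h1, h2, -⟩, -⟩ := hmem 0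
      refine ⟨?_, fun i hi => by omega⟩
      have h3 := Enc.get hk hl h2 0 (by omega)
      have h4 := hev 0
      rw [h3] at h4
      have h5 : l.length = L.length := by
        have := congrArg (fun e => e.2.length) h4
        simp only [evalAt, List.length_map] at this
        exact this.symm
      exact (h1.mono (Nat.zero_le _)).congr h5 (fun i hi => by omega)
    · obtain ⟨⟨a, l, h1, h2, h2'⟩, -⟩ := hmem n
      have h3 := Enc.get hk hl h2
      rw [hl] at h1 h2'
      have h5 : l.length = L.length := by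
        have h4 := hev 0
        rw [h3 0 (by omega)] at h4
        have := congrArg (fun e => e.2.length) h4
        simp only [evalAt, List.length_map] at this
        exact this.symm
      have h6 : ∀ i < n + 1, evalAt a l i = evalAt x L i := by
        intro i hi
        rw [hev, h3 i hi]
      refine ⟨h1.congr h5 h6, fun i hi => ?_⟩
      rw [← last_congr (h6 i hi)]
      exact h2' i hi
  have hlast : last x L = y := by
    funext i
    exact (hgood (i + 1)).2 i (by omega)
  -- closedness
  have hclosed : ∀ (a b w : N), (∀ n, ∃ w' : N, ∀ i < n, α w' i = a i ∧ β w' i = b i ∧ w' i = w i) →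
      α w = a ∧ β w = b := by
    intro a b w h1
    choose w' hw' using h1
    have hlim : Filter.Tendsto w' Filter.atTop (nhds w) := by
      rw [tendsto_pi_nhds]
      intro i
      apply tendsto_const_nhds.congr'
      filter_upwards [Filter.eventually_gt_atTop i] with n hn
      exact ((hw' n i hn).2.2).symm
    constructor
    · funext i
      have h2 := (tendsto_pi_nhds.1 ((hα.tendsto w).comp hlim)) i
      have h3 : Filter.Tendsto (fun n => (α ∘ w') n i) Filter.atTop (nhds (a i)) := by
        apply tendsto_const_nhds.congr'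
        filter_upwards [Filter.eventually_gt_atTop i] with n hn
        exact ((hw' n i hn).1).symm
      exact tendsto_nhds_unique h2 h3
    · funext i
      have h2 := (tendsto_pi_nhds.1 ((hβ.tendsto w).comp hlim)) i
      have h3 : Filter.Tendsto (fun n => (β ∘ w') n i) Filter.atTop (nhds (b i)) := by
        apply tendsto_const_nhds.congr'
        filter_upwards [Filter.eventually_gt_atTop i] with n hn
        exact ((hw' n i hn).2.1).symm
      exact tendsto_nhds_unique h2 h3
  have hreach : ∀ l : List (N × N), (∀ n, Good α β n x l) →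
      x = last x l ∨ ∃ w, α w = x ∧ β w = last x l := by
    intro l
    induction l with
    | nil => intro _; exact Or.inl rfl
    | cons q l ih =>
      intro h1
      have h2 := ih fun n => (h1 n).2
      obtain ⟨h3, h4⟩ := hclosed (last x l) q.2 q.1 fun n => (h1 n).1
      rcases h2 with h2 | ⟨w, h5, h6⟩
      · exact Or.inr ⟨q.1, by rw [h3, ← h2], h4⟩
      · obtain ⟨w'', h7, h8⟩ := htrans _ _ _ _ _ h5 h6 h3 h4
        exact Or.inr ⟨w'', h7, h8⟩
  have := hreach L fun n => (hgood n).1
  rwa [hlast] at this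

end

/-! ## Measurability -/

instance : MeasurableSpace D := ⊤
instance : DiscreteMeasurableSpace D := ⟨fun _ => trivial⟩

instance : Infinite D := Infinite.of_injective D.nd fun _ _ h => by simpa using h

lemma measurable_pull : Measurable pull := by
  classical
  refine measurable_pi_lambda _ fun i => measurable_pi_lambda _ fun xs => ?_
  have h1 : Measurable (fun π : ℕ → D => (π (xs 0), π (xs 1))) :=
    (measurable_pi_apply _).prodMk (measurable_pi_apply _)
  exact (Measurable.of_discrete (f := fun r : D × D => decide (rel (sym i) r.1 r.2))).comp h1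

section

variable {X : Type} [MeasurableSpace X] (Λ : X → List ℤ → Set K)

lemma measurableSet_J (hΛ : ∀ p κ, MeasurableSet {x : X | κ ∈ Λ x p}) (d : D) :
    MeasurableSet {x : X | J (Λ x) d} := by
  cases d with
  | gar =>
    have : {x : X | J (Λ x) .gar} = univ := by
      ext x
      exact ⟨fun _ => trivial, fun _ => J_gar _⟩
    rw [this]
    exact MeasurableSet.univ
  | nd p =>
    have : {x : X | J (Λ x) (.nd p)} = ∅ := by
      ext x
      exact ⟨fun h => absurd h (not_J_nd _ _), fun h => absurd h (notMem_empty _)⟩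
    rw [this]
    exact MeasurableSet.empty
  | std p κ n =>
    have : {x : X | J (Λ x) (.std p κ n)} = ∅ := by
      ext x
      exact ⟨fun h => absurd h (not_J_std _ _ _ _), fun h => absurd h (notMem_empty _)⟩
    rw [this]
    exact MeasurableSet.empty
  | lim p κ =>
    have : {x : X | J (Λ x) (.lim p κ)} = {x : X | κ ∈ Λ x p} := by
      ext x
      exact J_lim _ _ _
    rw [this]
    exact hΛ p κ

lemma measurableSet_fib (hΛ : ∀ p κ, MeasurableSet {x : X | κ ∈ Λ x p}) :
    MeasurableSet {q : (ℕ → D) × X | Fib (Λ q.2) q.1} := by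
  have hn : ∀ (n : ℕ) (d : D), MeasurableSet {q : (ℕ → D) × X | q.1 n = d} := by
    intro n d
    have h1 : Measurable (fun q : (ℕ → D) × X => q.1 n) := (measurable_pi_apply n).comp measurable_fst
    exact h1 (MeasurableSet.of_discrete (s := {d}))
  have hinf : ∀ d : D, MeasurableSet {q : (ℕ → D) × X | {n | q.1 n = d}.Infinite} := by
    intro d
    have : {q : (ℕ → D) × X | {n | q.1 n = d}.Infinite} =
        ⋂ m : ℕ, ⋃ n : ℕ, ⋃ _ : m ≤ n, {q : (ℕ → D) × X | q.1 n = d} := by
      ext q
      simp only [mem_iInter, mem_iUnion]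
      change {n | q.1 n = d}.Infinite ↔ _
      rw [← Nat.frequently_atTop_iff_infinite, Filter.frequently_atTop]
      constructor
      · intro h m
        obtain ⟨n, h1, h2⟩ := h m
        exact ⟨n, h1, h2⟩
      · intro h m
        obtain ⟨n, h1, h2⟩ := h m
        exact ⟨n, h1, h2⟩
    rw [this]
    exact MeasurableSet.iInter fun m => MeasurableSet.iUnion fun n => MeasurableSet.iUnion fun _ =>
      hn n d
  have hun : ∀ d : D, MeasurableSet {q : (ℕ → D) × X | ∃! n, q.1 n = d} := by
    intro d
    have : {q : (ℕ → D) × X | ∃! n, q.1 n = d} =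
        ⋃ n : ℕ, ({q : (ℕ → D) × X | q.1 n = d} ∩
          ⋂ m : ℕ, ⋂ _ : m ≠ n, {q : (ℕ → D) × X | q.1 m = d}ᶜ) := by
      ext q
      simp only [mem_iUnion, mem_inter_iff, mem_iInter, mem_compl_iff]
      constructor
      · rintro ⟨n, h1, h2⟩
        exact ⟨n, h1, fun m hm h3 => hm (h2 m h3)⟩
      · rintro ⟨n, h1, h2⟩
        refine ⟨n, h1, fun m hm => ?_⟩
        by_contra h3
        exact h2 m h3 hm
    rw [this]
    exact MeasurableSet.iUnion fun n => (hn n d).inter
      (MeasurableSet.iInter fun m => MeasurableSet.iInter fun _ => (hn m d).compl)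
  have hJ : ∀ d, MeasurableSet {q : (ℕ → D) × X | J (Λ q.2) d} := fun d =>
    measurable_snd (measurableSet_J Λ hΛ d)
  have : {q : (ℕ → D) × X | Fib (Λ q.2) q.1} = ⋂ d : D,
      (({q : (ℕ → D) × X | J (Λ q.2) d}ᶜ ∪ {q : (ℕ → D) × X | {n | q.1 n = d}.Infinite}) ∩
        ({q : (ℕ → D) × X | J (Λ q.2) d} ∪ {q : (ℕ → D) × X | ∃! n, q.1 n = d})) := by
    ext q
    simp only [mem_iInter, mem_inter_iff, mem_union, mem_compl_iff]
    constructor
    · intro h d
      have h1 := h d
      by_cases h2 : J (Λ q.2) d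
      · exact ⟨Or.inr (h1.1 h2), Or.inl h2⟩
      · exact ⟨Or.inl h2, Or.inr (h1.2 h2)⟩
    · intro h d
      obtain ⟨h1, h2⟩ := h d
      refine ⟨fun h3 => ?_, fun h3 => ?_⟩
      · rcases h1 with h1 | h1
        · exact absurd h3 h1
        · exact h1
      · rcases h2 with h2 | h2
        · exact absurd h2 h3
        · exact h2
  rw [this]
  exact MeasurableSet.iInter fun d => ((hJ d).compl.union (hinf d)).inter ((hJ d).union (hun d))

open Classical in
/-- a map of `ℕ` onto `D` with the prescribed fibres -/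
noncomputable def rho (e : ℕ ≃ D × ℕ) (L : List ℤ → Set K) (n : ℕ) : D :=
  if (e n).2 = 0 ∨ J L (e n).1 then (e n).1 else .gar

lemma fib_rho (e : ℕ ≃ D × ℕ) (L : List ℤ → Set K) : Fib L (rho e L) := by
  intro d
  constructor
  · intro hd
    have h1 : range (fun i : ℕ => e.symm (d, i)) ⊆ {n | rho e L n = d} := by
      rintro n ⟨i, rfl⟩
      change rho e L (e.symm (d, i)) = d
      simp [rho, hd]
    refine Infinite.mono h1 (infinite_range_of_injective ?_)
    intro i j hij
    simpa using hij
  · intro hd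
    have hg : d ≠ .gar := fun h => hd (h ▸ J_gar L)
    refine ⟨e.symm (d, 0), ?_, ?_⟩
    · simp [rho]
    · intro n hn
      simp only [rho] at hn
      split_ifs at hn with h1
      · rcases h1 with h1 | h1
        · rw [Equiv.eq_symm_apply]
          exact Prod.ext hn h1
        · rw [hn] at h1
          exact absurd h1 hd
      · exact absurd hn.symm hg

lemma measurable_rho (hΛ : ∀ p κ, MeasurableSet {x : X | κ ∈ Λ x p}) (e : ℕ ≃ D × ℕ) :
    Measurable (fun x : X => rho e (Λ x)) := by
  classical
  refine measurable_pi_lambda _ fun n => ?_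
  have : MeasurableSet {x : X | (e n).2 = 0 ∨ J (Λ x) (e n).1} :=
    (MeasurableSet.const _).union (measurableSet_J Λ hΛ _)
  exact Measurable.ite this measurable_const measurable_const

end

lemma Fib.perm {L : List ℤ → Set K} {π : ℕ → D} (h : Fib L π) (σ : Equiv.Perm ℕ) :
    Fib L (π ∘ σ) := by
  intro d
  constructor
  · intro hd
    have h1 : {n | (π ∘ σ) n = d} = σ ⁻¹' {n | π n = d} := rfl
    rw [h1]
    exact ((h d).1 hd).preimage (by rw [σ.surjective.range_eq]; exact subset_univ _)
  · intro hd
    obtain ⟨n, hn, hu⟩ := (h d).2 hd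
    refine ⟨σ.symm n, by simpa using hn, fun m hm => ?_⟩
    rw [Equiv.eq_symm_apply]
    exact hu _ hm

/-- The main theorem: every analytic quasi-order on a nonempty Polish space is Borel equivalent to
elementary embeddability on an invariant Borel class of countable structures. -/
theorem main (X : Type) [Nonempty X] [TopologicalSpace X] [PolishSpace X] [MeasurableSpace X]
    [BorelSpace X] (R : Set (X × X)) (hR : AnalyticSet R) (hrefl : ∀ x, (x, x) ∈ R)
    (htrans : ∀ x y z, (x, y) ∈ R → (y, z) ∈ R → (x, z) ∈ R) :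
    ∃ B : Set Str, MeasurableSet B ∧
      (∀ σ : Equiv.Perm ℕ, ∀ u ∈ B, (fun i v => u i (σ ∘ v)) ∈ B) ∧
      (∃ f : X → Str, Measurable f ∧ (∀ x, f x ∈ B) ∧
        ∀ x y, (x, y) ∈ R ↔ EEmb (f x) (f y)) ∧
      (∃ g : B → X, Measurable g ∧ ∀ u v : B, EEmb u.1 v.1 ↔ (g u, g v) ∈ R) := by
  classical
  obtain ⟨x₀⟩ := ‹Nonempty X›
  -- a Borel embedding of `X` into Baire space
  obtain ⟨c₀, hc₀m, hc₀i⟩ :=
    MeasurableSpace.measurable_injection_nat_bool_of_countablySeparated X
  let c : X → N := fun x n => (c₀ x n).toNat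
  have hcm : Measurable c := by
    refine measurable_pi_lambda _ fun n => ?_
    exact (Measurable.of_discrete (f := Bool.toNat)).comp ((measurable_pi_apply n).comp hc₀m)
  have hci : Function.Injective c := by
    intro x y hxy
    apply hc₀i
    funext n
    have h := congrFun hxy n
    simp only [c] at h
    cases h1 : c₀ x n <;> cases h2 : c₀ y n <;> simp_all
  -- the relation as a continuous image
  rw [AnalyticSet] at hR
  obtain ⟨ψ, hψ, hψr⟩ : ∃ ψ : (ℕ → ℕ) → X × X, Continuous ψ ∧ range ψ = R := by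
    rcases hR with hR | hR
    · have := hrefl x₀
      rw [hR] at this
      exact absurd this (notMem_empty _)
    · exact hR
  have hS : AnalyticSet (range fun w : ℕ → ℕ => (c (ψ w).1, c (ψ w).2)) := by
    have h1 : Measurable (fun w : ℕ → ℕ => (c (ψ w).1, c (ψ w).2)) :=
      (hcm.comp (measurable_fst.comp hψ.measurable)).prodMk
        (hcm.comp (measurable_snd.comp hψ.measurable))
    have h2 := (MeasurableSet.univ (α := ℕ → ℕ)).analyticSet_image h1
    rwa [image_univ] at h2
  rw [AnalyticSet] at hS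
  obtain ⟨θ, hθ, hθr⟩ : ∃ θ : N → N × N, Continuous θ ∧
      range θ = range fun w : ℕ → ℕ => (c (ψ w).1, c (ψ w).2) := by
    rcases hS with hS | hS
    · have : (c (ψ 0).1, c (ψ 0).2) ∈ (∅ : Set (N × N)) := by
        rw [← hS]
        exact ⟨0, rfl⟩
      exact absurd this (notMem_empty _)
    · exact hS
  let α : N → N := fun w => (θ w).1
  let β : N → N := fun w => (θ w).2
  have hα : Continuous α := continuous_fst.comp hθ
  have hβ : Continuous β := continuous_snd.comp hθ
  have h1 : ∀ w, ∃ x y, (x, y) ∈ R ∧ α w = c x ∧ β w = c y := by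
    intro w
    have : θ w ∈ range fun w : ℕ → ℕ => (c (ψ w).1, c (ψ w).2) := by
      rw [← hθr]
      exact ⟨w, rfl⟩
    obtain ⟨w', hw'⟩ := this
    refine ⟨(ψ w').1, (ψ w').2, ?_, ?_, ?_⟩
    · rw [← hψr]
      exact ⟨w', rfl⟩
    · exact (congrArg Prod.fst hw').symm
    · exact (congrArg Prod.snd hw').symm
  have h2 : ∀ x y, (x, y) ∈ R → ∃ w, α w = c x ∧ β w = c y := by
    intro x y hxy
    rw [← hψr] at hxy
    obtain ⟨w', hw'⟩ := hxy
    have : (c x, c y) ∈ range θ := by
      rw [hθr]
      exact ⟨w', by simp only [hw']⟩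
    obtain ⟨w, hw⟩ := this
    exact ⟨w, congrArg Prod.fst hw, congrArg Prod.snd hw⟩
  have htr : ∀ u v t w w', α w = u → β w = v → α w' = v → β w' = t →
      ∃ w'', α w'' = u ∧ β w'' = t := by
    intro u v t w w' e1 e2 e3 e4
    obtain ⟨x, y, hxy, e5, e6⟩ := h1 w
    obtain ⟨y', z, hyz, e7, e8⟩ := h1 w'
    have : y = y' := hci (by rw [← e6, ← e7, e2, e3])
    subst this
    obtain ⟨w'', e9, e10⟩ := h2 x z (htrans x y z hxy hyz)
    exact ⟨w'', by rw [e9, ← e5, e1], by rw [e10, ← e8, e4]⟩
  let Λ : X → List ℤ → Set K := fun x => Lam α β (c x)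
  have key : ∀ x y π π', Fib (Λ x) π → Fib (Λ y) π' → (EEmb (pull π) (pull π') ↔ (x, y) ∈ R) := by
    intro x y π π' hF hF'
    constructor
    · intro h
      rcases rel_of_tem hα hβ htr (h.tree hF hF') with h3 | ⟨w, e1, e2⟩
      · rw [hci h3]
        exact hrefl _
      · obtain ⟨x', y', hxy, e3, e4⟩ := h1 w
        have e5 : x = x' := hci (by rw [← e1, e3])
        have e6 : y = y' := hci (by rw [← e2, e4])
        rw [e5, e6]
        exact hxy
    · intro h
      obtain ⟨w, e1, e2⟩ := h2 x y h
      obtain ⟨g, hg, hL⟩ := tree_map e1 e2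
      exact tree_EEmb hF hF' hg hL
  have hΛ : ∀ p κ, MeasurableSet {x : X | κ ∈ Λ x p} := fun p κ =>
    hcm (measurableSet_lam (α := α) (β := β) p κ)
  -- the class of structures
  let A : Set ((ℕ → D) × X) := {q | Fib (Λ q.2) q.1}
  have hA : MeasurableSet A := measurableSet_fib Λ hΛ
  let Φ : (ℕ → D) × X → Str := fun q => pull q.1
  have hΦ : Measurable Φ := measurable_pull.comp measurable_fst
  have hinj : InjOn Φ A := by
    rintro ⟨π, x⟩ hq ⟨π', x'⟩ hq' h
    obtain ⟨g, hg, hgπ, hgΛ⟩ := eq_tree (show Fib (Λ x) π from hq) (show Fib (Λ x') π' from hq')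
      (pull_eq h)
    obtain ⟨hid, hxx⟩ := rigid hg hgΛ
    have : ∀ d, mapD g d = d := by
      intro d
      cases d <;> simp [mapD, hid]
    refine Prod.ext ?_ (hci hxx)
    funext n
    change π n = π' n
    rw [hgπ, this]
  have hAs : StandardBorelSpace A := hA.standardBorel
  let Ψ : A → Str := fun q => Φ q.1
  have hΨ : MeasurableEmbedding Ψ := by
    apply Measurable.measurableEmbedding (hΦ.comp measurable_subtype_coe)
    intro q q' h
    exact Subtype.ext (hinj q.2 q'.2 h)
  obtain ⟨G, hG, hGΨ⟩ := hΨ.exists_measurable_extend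
    (g := fun q : A => q.1.2) (measurable_snd.comp measurable_subtype_coe) (fun _ => ⟨x₀⟩)
  have hGpull : ∀ π x, Fib (Λ x) π → G (pull π) = x := by
    intro π x h
    exact congrFun hGΨ ⟨(π, x), h⟩
  obtain ⟨e⟩ : Nonempty (ℕ ≃ D × ℕ) := by
    have := Classical.choice (nonempty_denumerable (D × ℕ))
    exact ⟨(Denumerable.eqv (D × ℕ)).symm⟩
  refine ⟨Φ '' A, hA.image_of_measurable_injOn hΦ hinj, ?_, ?_, ?_⟩
  · rintro σ _ ⟨⟨π, x⟩, hq, rfl⟩
    exact ⟨(π ∘ σ, x), Fib.perm (show Fib (Λ x) π from hq) σ, rfl⟩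
  · refine ⟨fun x => pull (rho e (Λ x)), measurable_pull.comp (measurable_rho Λ hΛ e), ?_, ?_⟩
    · intro x
      exact ⟨(rho e (Λ x), x), fib_rho e _, rfl⟩
    · intro x y
      exact (key x y _ _ (fib_rho e (Λ x)) (fib_rho e (Λ y))).symm
  · refine ⟨fun u => G u.1, hG.comp measurable_subtype_coe, ?_⟩
    rintro ⟨_, ⟨⟨π, x⟩, hq, rfl⟩⟩ ⟨_, ⟨⟨π', y⟩, hq', rfl⟩⟩
    change EEmb (pull π) (pull π') ↔ (G (pull π), G (pull π')) ∈ R
    rw [hGpull π x hq, hGpull π' y hq']
    exact key x y π π' hq hq'

end Pool.Agent.V7H77.EE
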